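import Pool.Agent.Helper45.GH.LP
import Pool.Agent.Helper98.GH.Unit
import Pool.Agent.Helper63.GH.Dcom

/-!
Project GH, block P2: the density step for pairs. The first part (pairs of operators acting on `L`) is the one of
Pool/Agent/Helper58/GH/Dich.lean.
-/

set_option linter.unusedSectionVars false
set_option linter.unusedVariables false
set_option linter.unusedSimpArgs false

open Matrix Module

namespace GH

open MH

section one

variable {n : Type*} [Fintype n] [DecidableEq n] {L : Submodule ℂ (Matrix n n ℂ)} {h : Matrix n n ℂ}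
  {E : ℝ → Matrix n n ℂ} {Λ : Finset ℝ}

/-- the pair `(u, v)`, cut down to the kernel of `h`, acts on `L` -/
private def Pr45 (L : Submodule ℂ (Matrix n n ℂ)) (h : Matrix n n ℂ) (E : ℝ → Matrix n n ℂ)
    (u v : Matrix n n ℂ) : Prop :=
  E 0 * u = u * E 0 ∧ E 0 * v = v * E 0 ∧
    ∀ ν : ℝ, ν ≠ 0 → ∀ x ∈ Ld L h ν, x * (u * E 0) + E 0 * v * x ∈ Ld L h ν

private theorem Pr45.mk' (G : Gr L h E Λ) {u v : Matrix n n ℂ} (h1 : E 0 * u = u * E 0)
    (h2 : E 0 * v = v * E 0)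
    (h3 : ∀ ν : ℝ, ν ≠ 0 → ∀ x ∈ Ld L h ν, x * (u * E 0) + E 0 * v * x ∈ L) : Pr45 L h E u v := by
  refine ⟨h1, h2, fun ν hν x hx => ⟨h3 ν hν x hx, ?_⟩⟩
  have e1 : (u * E 0) * h = 0 := by rw [mul_assoc, G.E0_h, mul_zero]
  have e2 : h * (E 0 * v) = 0 := by rw [← mul_assoc, G.h_E0, zero_mul]
  have e3 : h * (u * E 0) = 0 := by rw [← h1, ← mul_assoc, G.h_E0, zero_mul]
  have e4 : (E 0 * v) * h = 0 := by rw [h2, mul_assoc, G.E0_h, mul_zero]
  have e5 : h * (x * (u * E 0) + E 0 * v * x) - (x * (u * E 0) + E 0 * v * x) * h =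
      (h * x - x * h) * (u * E 0) + E 0 * v * (h * x - x * h) +
        (x * (h * (u * E 0)) - x * ((u * E 0) * h)) + ((h * (E 0 * v)) * x - ((E 0 * v) * h) * x) := by
    noncomm_ring
  rw [e5, e1, e2, e3, e4, hx.2]
  simp only [mul_zero, zero_mul, sub_zero, add_zero, smul_add, smul_mul_assoc, mul_smul_comm]

private theorem Pr45.mul (G : Gr L h E Λ) {u v u' v' : Matrix n n ℂ} (h1 : Pr45 L h E u v)
    (h2 : Pr45 L h E u' v') : Pr45 L h E (u * u') (v' * v) := by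
  obtain ⟨a1, a2, a3⟩ := h1
  obtain ⟨b1, b2, b3⟩ := h2
  refine Pr45.mk' G (by rw [← mul_assoc, a1, mul_assoc, b1, mul_assoc])
    (by rw [← mul_assoc, b2, mul_assoc, a2, mul_assoc]) ?_
  intro ν hν x hx
  have c1 := (b3 ν hν _ (a3 ν hν x hx)).1
  have c2 := G.EE hν hx
  have c3 := G.E0_E0
  have c4 : E 0 * v * x * (u' * E 0) = 0 := by
    rw [a2, ← b1]
    have : v * E 0 * x * (E 0 * u') = v * (E 0 * x * E 0) * u' := by noncomm_ring
    rw [this, c2]; simp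
  have c5 : E 0 * v' * (x * (u * E 0)) = 0 := by
    rw [b2, ← a1]
    have : v' * E 0 * (x * (E 0 * u)) = v' * (E 0 * x * E 0) * u := by noncomm_ring
    rw [this, c2]; simp
  have c6 : u * E 0 * (u' * E 0) = u * u' * E 0 := by
    rw [← b1, mul_assoc, ← mul_assoc (E 0), c3, b1, mul_assoc]
  have c7 : E 0 * v' * (E 0 * v) = E 0 * (v' * v) := by
    rw [b2, mul_assoc, ← mul_assoc (E 0) (E 0), c3, ← mul_assoc, ← b2, mul_assoc]
  have c8 : (x * (u * E 0) + E 0 * v * x) * (u' * E 0) + E 0 * v' * (x * (u * E 0) + E 0 * v * x) =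
      x * (u * E 0 * (u' * E 0)) + E 0 * v * x * (u' * E 0) + E 0 * v' * (x * (u * E 0)) +
        E 0 * v' * (E 0 * v) * x := by noncomm_ring
  rw [c8, c4, c5, c6, c7] at c1
  simpa using c1

private theorem adj_star45 {m : Type*} [Fintype m] [DecidableEq m] {S : Set (Matrix m m ℂ)}
    (hS : ∀ x ∈ S, xᴴ ∈ S) : ∀ x ∈ Algebra.adjoin ℂ S, xᴴ ∈ Algebra.adjoin ℂ S := by
  intro x hx
  induction hx using Algebra.adjoin_induction with
  | mem x hx => exact Algebra.subset_adjoin (hS x hx)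
  | algebraMap r =>
    rw [Algebra.algebraMap_eq_smul_one, conjTranspose_smul, conjTranspose_one]
    exact Subalgebra.smul_mem _ (Subalgebra.one_mem _) _
  | add x y _ _ hx hy => rw [conjTranspose_add]; exact Subalgebra.add_mem _ hx hy
  | mul x y _ _ hx hy => rw [conjTranspose_mul]; exact Subalgebra.mul_mem _ hy hx

private def S45 (L : Submodule ℂ (Matrix n n ℂ)) (E : ℝ → Matrix n n ℂ) :
    Set (Matrix (n ⊕ n) (n ⊕ n) ℂ) :=
  {m | m = fromBlocks (E 0) 0 0 (E 0)ᵀ ∨ ∃ z ∈ KK L E, m = fromBlocks z 0 0 (-zᵀ)}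

private theorem S45_star (G : Gr L h E Λ) : ∀ x ∈ S45 L E, xᴴ ∈ S45 L E := by
  rintro x (rfl | ⟨z, hz, rfl⟩)
  · left
    rw [fromBlocks_conjTranspose, G.spec.star, conjTranspose_zero]
    congr 1
    conv_rhs => rw [← G.spec.star 0]
    rfl
  · right
    refine ⟨zᴴ, G.KK_star hz, ?_⟩
    rw [fromBlocks_conjTranspose, conjTranspose_zero, conjTranspose_neg]
    rfl

private theorem adj45 (G : Gr L h E Λ) (U : Un L h E) : ∀ m ∈ Algebra.adjoin ℂ (S45 L E),
    ∃ u v : Matrix n n ℂ, m = fromBlocks u 0 0 vᵀ ∧ Pr45 L h E u v := by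
  intro m hm
  induction hm using Algebra.adjoin_induction with
  | mem x hx =>
    rcases hx with rfl | ⟨z, hz, rfl⟩
    · refine ⟨E 0, E 0, rfl, Pr45.mk' G rfl rfl fun ν hν x hx => ?_⟩
      rw [G.E0_E0]
      exact U ν hν x hx
    · refine ⟨z, -z, by rw [transpose_neg], Pr45.mk' G (by rw [G.KK_left hz, G.KK_right hz])
        (by rw [mul_neg, neg_mul, G.KK_left hz, G.KK_right hz]) fun ν hν x hx => ?_⟩
      rw [mul_neg, G.KK_left hz, G.KK_right hz, neg_mul, ← sub_eq_add_neg]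
      exact G.br x hx.1 z hz.1
  | algebraMap r =>
    refine ⟨r • 1, r • 1, ?_, Pr45.mk' G (by simp) (by simp) fun ν hν x hx => ?_⟩
    · rw [Algebra.algebraMap_eq_smul_one, ← fromBlocks_one, fromBlocks_smul]
      simp
    · have := L.smul_mem r (U ν hν x hx)
      simpa [smul_add] using this
  | add x y _ _ hx hy =>
    obtain ⟨u, v, rfl, a1, a2, a3⟩ := hx
    obtain ⟨u', v', rfl, b1, b2, b3⟩ := hy
    refine ⟨u + u', v + v', by rw [fromBlocks_add]; simp, Pr45.mk' G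
      (by rw [mul_add, add_mul, a1, b1]) (by rw [mul_add, add_mul, a2, b2]) fun ν hν x hx => ?_⟩
    have := L.add_mem (a3 ν hν x hx).1 (b3 ν hν x hx).1
    have e : x * ((u + u') * E 0) + E 0 * (v + v') * x =
      x * (u * E 0) + E 0 * v * x + (x * (u' * E 0) + E 0 * v' * x) := by noncomm_ring
    rw [e]; exact this
  | mul x y _ _ hx hy =>
    obtain ⟨u, v, rfl, a⟩ := hx
    obtain ⟨u', v', rfl, b⟩ := hy
    exact ⟨u * u', v' * v, by rw [fromBlocks_multiply]; simp, a.mul G b⟩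

end one

variable {m : Type*} [Fintype m] [DecidableEq m] {k : Type*} [Fintype k] [DecidableEq k]
variable {P : Submodule ℂ (Matrix m m ℂ × Matrix k k ℂ)} {h₁ : Matrix m m ℂ} {E₁ : ℝ → Matrix m m ℂ} {Λ₁ : Finset ℝ}
  {h₂ : Matrix k k ℂ} {E₂ : ℝ → Matrix k k ℂ} {Λ₂ : Finset ℝ}

/-- a block matrix with off-diagonal blocks zero commutes with the projection -/
private theorem off45 {Y : Matrix (m ⊕ k) (m ⊕ k) ℂ} (h1 : Y.toBlocks₁₂ = 0) (h2 : Y.toBlocks₂₁ = 0) :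
    dg45 1 0 * Y = Y * dg45 1 0 := by
  rw [← fromBlocks_toBlocks Y, h1, h2]
  unfold dg45
  rw [fromBlocks_multiply, fromBlocks_multiply]
  simp

/-- operators on the kernel that commute with `PK` -/
private theorem offT45 (D : PG P h₁ E₁ Λ₁ h₂ E₂ Λ₂)
    (hT : ∀ T : Matrix k m ℂ, E₂ 0 * T = T → T * E₁ 0 = T → (∀ p ∈ PK P E₁ E₂, p.2 * T = T * p.1) → T = 0)
    {Y : Matrix (m ⊕ k) (m ⊕ k) ℂ} (h1 : EP45 E₁ E₂ 0 * Y = Y) (h2 : Y * EP45 E₁ E₂ 0 = Y)
    (h3 : ∀ z ∈ KK (LP45 P) (EP45 E₁ E₂), Y * z = z * Y) : dg45 1 0 * Y = Y * dg45 1 0 := by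
  obtain ⟨a, b, c, d, rfl⟩ : ∃ (a : Matrix m m ℂ) (b : Matrix m k ℂ) (c : Matrix k m ℂ) (d : Matrix k k ℂ),
      Y = fromBlocks a b c d := ⟨Y.toBlocks₁₁, Y.toBlocks₁₂, Y.toBlocks₂₁, Y.toBlocks₂₂, (fromBlocks_toBlocks Y).symm⟩
  unfold EP45 dg45 at h1 h2
  rw [fromBlocks_multiply, fromBlocks_inj] at h1 h2
  simp only [Matrix.mul_zero, Matrix.zero_mul, add_zero, zero_add] at h1 h2
  obtain ⟨-, b1, c1, -⟩ := h1
  obtain ⟨-, b2, c2, -⟩ := h2
  have h4 : ∀ p ∈ PK P E₁ E₂, b * p.2 = p.1 * b ∧ c * p.1 = p.2 * c := by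
    intro p hp
    have h5 := h3 _ (mem_KK45.2 ⟨p, hp, rfl⟩)
    unfold dg45 at h5
    rw [fromBlocks_multiply, fromBlocks_multiply, fromBlocks_inj] at h5
    simp only [Matrix.mul_zero, Matrix.zero_mul, add_zero, zero_add] at h5
    exact ⟨h5.2.1, h5.2.2.1⟩
  have hc : c = 0 := hT c c1 c2 fun p hp => (h4 p hp).2.symm
  have hb : bᴴ = 0 := by
    apply hT
    · rw [← D.spec2.star 0, ← conjTranspose_mul, b2]
    · rw [← D.spec1.star 0, ← conjTranspose_mul, b1]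
    · intro p hp
      have h5 : (p.1ᴴ, p.2ᴴ) ∈ PK P E₁ E₂ := by
        refine ⟨D.st p hp.1, ?_, ?_⟩
        · show E₁ 0 * p.1ᴴ * E₁ 0 = p.1ᴴ
          have h6 := congrArg conjTranspose hp.2.1
          rw [conjTranspose_mul, conjTranspose_mul, D.spec1.star, ← mul_assoc] at h6
          exact h6
        · show E₂ 0 * p.2ᴴ * E₂ 0 = p.2ᴴ
          have h6 := congrArg conjTranspose hp.2.2
          rw [conjTranspose_mul, conjTranspose_mul, D.spec2.star, ← mul_assoc] at h6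
          exact h6
      have h6 := congrArg conjTranspose (h4 _ h5).1
      rw [conjTranspose_mul, conjTranspose_mul, conjTranspose_conjTranspose, conjTranspose_conjTranspose] at h6
      exact h6
  have hb' : b = 0 := conjTranspose_eq_zero.1 hb
  apply off45
  · rw [toBlocks_fromBlocks₁₂, hb']
  · rw [toBlocks_fromBlocks₂₁, hc]

/-- forms on the kernel that are invariant under `PK` -/
private theorem offF45 (D : PG P h₁ E₁ Λ₁ h₂ E₂ Λ₂)
    (hF : ∀ F : Matrix k m ℂ, (E₂ 0)ᵀ * F = F → F * E₁ 0 = F → (∀ p ∈ PK P E₁ E₂, p.2ᵀ * F + F * p.1 = 0) → F = 0)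
    {Y : Matrix (m ⊕ k) (m ⊕ k) ℂ} (h1 : (EP45 E₁ E₂ 0)ᵀ * Y = Y) (h2 : Y * EP45 E₁ E₂ 0 = Y)
    (h3 : ∀ z ∈ KK (LP45 P) (EP45 E₁ E₂), zᵀ * Y + Y * z = 0) : dg45 1 0 * Y = Y * dg45 1 0 := by
  obtain ⟨a, b, c, d, rfl⟩ : ∃ (a : Matrix m m ℂ) (b : Matrix m k ℂ) (c : Matrix k m ℂ) (d : Matrix k k ℂ),
      Y = fromBlocks a b c d := ⟨Y.toBlocks₁₁, Y.toBlocks₁₂, Y.toBlocks₂₁, Y.toBlocks₂₂, (fromBlocks_toBlocks Y).symm⟩
  unfold EP45 dg45 at h1 h2
  rw [fromBlocks_transpose] at h1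
  rw [fromBlocks_multiply, fromBlocks_inj] at h1 h2
  simp only [Matrix.mul_zero, Matrix.zero_mul, add_zero, zero_add, transpose_zero] at h1 h2
  obtain ⟨-, b1, c1, -⟩ := h1
  obtain ⟨-, b2, c2, -⟩ := h2
  have h4 : ∀ p ∈ PK P E₁ E₂, p.1ᵀ * b + b * p.2 = 0 ∧ p.2ᵀ * c + c * p.1 = 0 := by
    intro p hp
    have h5 := h3 _ (mem_KK45.2 ⟨p, hp, rfl⟩)
    unfold dg45 at h5
    rw [fromBlocks_transpose, fromBlocks_multiply, fromBlocks_multiply, fromBlocks_add, ← fromBlocks_zero,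
      fromBlocks_inj] at h5
    simp only [Matrix.mul_zero, Matrix.zero_mul, add_zero, zero_add, transpose_zero] at h5
    exact ⟨h5.2.1, h5.2.2.1⟩
  have hc : c = 0 := hF c c1 c2 fun p hp => (h4 p hp).2
  have hb : bᵀ = 0 := by
    apply hF
    · rw [← transpose_mul, b2]
    · rw [← transpose_transpose (E₁ 0), ← transpose_mul, b1]
    · intro p hp
      have h6 := congrArg transpose (h4 _ hp).1
      rw [transpose_add, transpose_mul, transpose_mul, transpose_transpose, transpose_zero, add_comm] at h6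
      exact h6
  have hb' : b = 0 := transpose_eq_zero.1 hb
  apply off45
  · rw [toBlocks_fromBlocks₁₂, hb']
  · rw [toBlocks_fromBlocks₂₁, hc]

/-- P2: `x₁ E₁ + E₁ x₁` and `x₂ E₂ + E₂ x₂` (this is `Gr.unit` for the pair) and the density step -/
theorem PG.dens (D : PG P h₁ E₁ Λ₁ h₂ E₂ Λ₂) (n1 : Nr1 P h₁ h₂) (n2 : Nr2 P h₁ h₂) (e1 : E₁ 0 ≠ 1) (e2 : E₂ 0 ≠ 1)
    (g : Gra P) (f1 : 4 ≤ finrank ℂ ((PK P E₁ E₂).map (LinearMap.fst ℂ _ _)))
    (f2 : 4 ≤ finrank ℂ ((PK P E₁ E₂).map (LinearMap.snd ℂ _ _))) :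
    (∃ T : Matrix k m ℂ, T ≠ 0 ∧ E₂ 0 * T = T ∧ T * E₁ 0 = T ∧ ∀ p ∈ PK P E₁ E₂, p.2 * T = T * p.1) ∨
      ∃ F : Matrix k m ℂ, F ≠ 0 ∧ (E₂ 0)ᵀ * F = F ∧ F * E₁ 0 = F ∧ ∀ p ∈ PK P E₁ E₂, p.2ᵀ * F + F * p.1 = 0 := by
  classical
  by_contra hcon
  rw [not_or] at hcon
  obtain ⟨hT, hF⟩ := hcon
  have hT' : ∀ T : Matrix k m ℂ, E₂ 0 * T = T → T * E₁ 0 = T → (∀ p ∈ PK P E₁ E₂, p.2 * T = T * p.1) → T = 0 := by
    intro T h1 h2 h3
    by_contra h0
    exact hT ⟨T, h0, h1, h2, h3⟩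
  have hF' : ∀ F : Matrix k m ℂ, (E₂ 0)ᵀ * F = F → F * E₁ 0 = F →
      (∀ p ∈ PK P E₁ E₂, p.2ᵀ * F + F * p.1 = 0) → F = 0 := by
    intro F h1 h2 h3
    by_contra h0
    exact hF ⟨F, h0, h1, h2, h3⟩
  have G := gr45 D
  have U : Un (LP45 P) (dg45 h₁ h₂) (EP45 E₁ E₂) := G.unit (fam45 D n1 n2) (four45 f1 f2)
  have c3 := G.E0_E0
  have s1 : ((EP45 E₁ E₂ 0)ᵀ)ᴴ = (EP45 E₁ E₂ 0)ᵀ := by
    conv_rhs => rw [← G.spec.star 0]
    rfl
  have c3' : (EP45 E₁ E₂ 0)ᵀ * (EP45 E₁ E₂ 0)ᵀ = (EP45 E₁ E₂ 0)ᵀ := by rw [← transpose_mul, c3]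
  obtain ⟨f, hf⟩ : ∃ f : Matrix (m ⊕ k) (m ⊕ k) ℂ, f = dg45 1 0 := ⟨_, rfl⟩
  obtain ⟨E, hE⟩ : ∃ E : Matrix (m ⊕ k) (m ⊕ k) ℂ, E = EP45 E₁ E₂ 0 := ⟨_, rfl⟩
  have hfE : f * E = E * f := by
    rw [hf, hE]
    unfold EP45
    rw [dg_mul45, dg_mul45, one_mul, mul_one, zero_mul, mul_zero]
  have hft : fᵀ = f := by rw [hf, dg_transpose45, transpose_one, transpose_zero]
  have hfs : fᴴ = f := by rw [hf, dg_star45, conjTranspose_one, conjTranspose_zero]
  have hoT : ∀ Y, E * Y = Y → Y * E = Y → (∀ z ∈ KK (LP45 P) (EP45 E₁ E₂), Y * z = z * Y) → f * Y = Y * f := by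
    intro Y h1 h2 h3
    rw [hf]
    rw [hE] at h1 h2
    exact offT45 D hT' h1 h2 h3
  have hoF : ∀ Y, Eᵀ * Y = Y → Y * E = Y → (∀ z ∈ KK (LP45 P) (EP45 E₁ E₂), zᵀ * Y + Y * z = 0) →
      f * Y = Y * f := by
    intro Y h1 h2 h3
    rw [hf]
    rw [hE] at h1 h2
    exact offF45 D hF' h1 h2 h3
  rw [← hE] at c3 c3' s1
  -- the projection to the first coordinates
  have hp : fromBlocks (f * E) 0 0 (f * Eᵀ) ∈ Algebra.adjoin ℂ (S45 (LP45 P) (EP45 E₁ E₂)) := by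
    apply dcom _ (adj_star45 (S45_star G))
    intro y hy
    obtain ⟨y11, y12, y21, y22, rfl⟩ : ∃ a b c d : Matrix (m ⊕ k) (m ⊕ k) ℂ, y = fromBlocks a b c d :=
      ⟨y.toBlocks₁₁, y.toBlocks₁₂, y.toBlocks₂₁, y.toBlocks₂₂, (fromBlocks_toBlocks y).symm⟩
    have he := hy _ (Algebra.subset_adjoin (Or.inl rfl))
    rw [fromBlocks_multiply, fromBlocks_multiply, fromBlocks_inj, ← hE] at he
    simp only [mul_zero, zero_mul, add_zero, zero_add] at he
    obtain ⟨a1, a2, a3, a4⟩ := he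
    have hz : ∀ z ∈ KK (LP45 P) (EP45 E₁ E₂), y11 * z = z * y11 ∧ y12 * zᵀ + z * y12 = 0 ∧
        zᵀ * y21 + y21 * z = 0 ∧ y22 * zᵀ = zᵀ * y22 := by
      intro z hz
      have h1 := hy _ (Algebra.subset_adjoin (Or.inr ⟨z, hz, rfl⟩))
      rw [fromBlocks_multiply, fromBlocks_multiply, fromBlocks_inj] at h1
      simp only [mul_zero, zero_mul, add_zero, zero_add] at h1
      obtain ⟨h1, h2, h3, h4⟩ := h1
      refine ⟨h1, ?_, ?_, ?_⟩
      · rw [← h2]; simp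
      · rw [h3]; simp
      · rw [mul_neg, neg_mul, neg_inj] at h4
        exact h4
    have hEz : ∀ z ∈ KK (LP45 P) (EP45 E₁ E₂), E * z = z ∧ z * E = z := by
      intro z hz
      rw [hE]
      exact ⟨G.KK_left hz, G.KK_right hz⟩
    have b11 : f * (y11 * E) = (y11 * E) * f := by
      apply hoT
      · rw [a1, ← mul_assoc, c3]
      · rw [mul_assoc, c3]
      · intro z hz'
        rw [mul_assoc, (hEz z hz').1, (hz z hz').1, ← mul_assoc, ← (hz z hz').1, mul_assoc, (hEz z hz').2]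
    have b21 : f * (y21 * E) = (y21 * E) * f := by
      apply hoF
      · rw [a3, ← mul_assoc, c3']
      · rw [mul_assoc, c3]
      · intro z hz'
        have h1 := (hz z hz').2.2.1
        have h2 : y21 * E * z = y21 * z * E := by
          rw [mul_assoc, (hEz z hz').1, mul_assoc, (hEz z hz').2]
        rw [h2, ← mul_assoc, ← add_mul, h1, zero_mul]
    have b12 : f * (y12ᴴ * E) = (y12ᴴ * E) * f := by
      have e2' : Eᵀ * y12ᴴ = y12ᴴ * E := by
        have := congrArg Matrix.conjTranspose a2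
        rw [conjTranspose_mul, conjTranspose_mul, s1, hE, G.spec.star, ← hE] at this
        exact this
      apply hoF
      · rw [← e2', ← mul_assoc, c3']
      · rw [mul_assoc, c3]
      · intro z hz'
        have h1 := congrArg Matrix.conjTranspose (hz _ (G.KK_star hz')).2.1
        rw [conjTranspose_add, conjTranspose_mul, conjTranspose_mul, conjTranspose_conjTranspose,
          conjTranspose_zero] at h1
        have s2 : ((zᴴ)ᵀ)ᴴ = zᵀ := by
          ext i j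
          simp [Matrix.conjTranspose_apply, Matrix.transpose_apply]
        rw [s2] at h1
        have h2 : y12ᴴ * E * z = y12ᴴ * z * E := by
          rw [mul_assoc, (hEz z hz').1, mul_assoc, (hEz z hz').2]
        rw [h2, ← mul_assoc, ← add_mul, h1, zero_mul]
    have b22 : f * (y22ᵀ * E) = (y22ᵀ * E) * f := by
      have e2' : E * y22ᵀ = y22ᵀ * E := by
        have := congrArg Matrix.transpose a4
        rw [transpose_mul, transpose_mul, transpose_transpose] at this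
        exact this
      apply hoT
      · rw [← e2', ← mul_assoc, c3]
      · rw [mul_assoc, c3]
      · intro z hz'
        have h1 := congrArg Matrix.transpose (hz _ hz').2.2.2
        rw [transpose_mul, transpose_mul, transpose_transpose] at h1
        rw [mul_assoc, (hEz z hz').1, ← h1, ← mul_assoc, h1, mul_assoc, (hEz z hz').2]
    rw [fromBlocks_multiply, fromBlocks_multiply]
    simp only [mul_zero, zero_mul, add_zero, zero_add]
    congr 1
    · rw [mul_assoc, ← a1, b11, hfE, mul_assoc]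
    · have hEs : Eᴴ = E := by rw [hE, G.spec.star]
      have h1 := congrArg Matrix.conjTranspose b12
      rw [conjTranspose_mul f, conjTranspose_mul (y12ᴴ * E) f, conjTranspose_mul y12ᴴ E,
        conjTranspose_conjTranspose, hfs, hEs] at h1
      have h2 : Eᵀ * f = f * Eᵀ := by
        have := congrArg Matrix.transpose hfE
        rw [transpose_mul, transpose_mul, hft] at this
        exact this
      rw [mul_assoc, ← h1, ← a2, ← h2, mul_assoc]
    · rw [mul_assoc, ← a3, b21, hfE, mul_assoc]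
    · have h1 := congrArg Matrix.transpose b22
      rw [transpose_mul f, transpose_mul (y22ᵀ * E) f, transpose_mul y22ᵀ E, transpose_transpose, hft] at h1
      have h2 : Eᵀ * f = f * Eᵀ := by
        have := congrArg Matrix.transpose hfE
        rw [transpose_mul, transpose_mul, hft] at this
        exact this
      rw [mul_assoc, ← h1, ← a4, ← h2, mul_assoc]
  obtain ⟨u, v, hb, hu⟩ := adj45 G U _ hp
  rw [fromBlocks_inj] at hb
  obtain ⟨hb1, -, -, hb4⟩ := hb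
  have hv : v = f * E := by
    have h1 := congrArg Matrix.transpose hb4
    rw [transpose_transpose, transpose_mul, transpose_transpose, hft] at h1
    rw [← h1, hfE]
  have hu' : u = f * E := hb1.symm
  -- the first projection commutes with the elements of nonzero degree
  have hcom : ∀ ν : ℝ, ν ≠ 0 → ∀ p ∈ Pd P h₁ h₂ ν, E₁ 0 * p.1 = p.1 * E₁ 0 := by
    intro ν hν p hp'
    have h1 := hu.2.2 ν hν _ (mem_Ld45.2 ⟨p, hp', rfl⟩)
    rw [hu', hv, ← hE, mul_assoc f E E, c3, hfE, ← mul_assoc E E f, c3, ← hfE, hf, hE] at h1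
    unfold EP45 at h1
    have E11 : E₁ 0 * E₁ 0 = E₁ 0 := by rw [D.spec1.mul, if_pos rfl]
    rw [dg_mul45, dg_mul45, dg_mul45, dg_add45, one_mul, zero_mul, mul_zero, zero_mul, add_zero] at h1
    obtain ⟨q, hq, hq'⟩ := mem_Ld45.1 h1
    obtain ⟨q1, q2⟩ := dg_inj45 hq'
    obtain ⟨c, hc⟩ := (g q hq.1).2 ⟨0, by rw [zero_smul, ← q2]⟩
    have h2 : (ν : ℂ) • q.1 = 0 := by
      rw [← hq.2.1, hc, mul_smul_comm, smul_mul_assoc, mul_one, one_mul, sub_self]
    have h3 : q.1 = 0 := (smul_eq_zero.1 h2).resolve_left (by exact_mod_cast hν)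
    rw [h3] at q1
    -- `E x E = 0`
    have h4 : E₁ 0 * p.1 * E₁ 0 = 0 := by
      have h5 := G.EE hν (mem_Ld45.2 ⟨p, hp', rfl⟩)
      unfold EP45 at h5
      rw [dg_mul45, dg_mul45, ← dg_zero45] at h5
      exact (dg_inj45 h5).1
    have h6 : p.1 * E₁ 0 = 0 := by
      have h7 := congrArg (fun y => y * E₁ 0) q1
      simp only [add_mul, mul_assoc, zero_mul, E11] at h7
      rw [← mul_assoc (E₁ 0), h4, add_zero] at h7
      exact h7
    rw [h6, zero_add] at q1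
    rw [h6, q1]
  obtain ⟨c, hc⟩ := n1 (E₁ 0) (by rw [D.spec1.mul_h, D.spec1.h_mul]) hcom
  have E11 : E₁ 0 * E₁ 0 = E₁ 0 := by rw [D.spec1.mul, if_pos rfl]
  have h8 : E₁ 0 = 0 := by
    by_cases hc1 : c = 1
    · rw [hc1, one_smul] at hc
      exact absurd hc e1
    · have h9 : (1 - c) • E₁ 0 = 0 := by
        have h10 : c • E₁ 0 = E₁ 0 := by
          conv_rhs => rw [← E11]
          conv_rhs => lhs; rw [hc]
          rw [smul_mul_assoc, one_mul]
        rw [sub_smul, one_smul, h10, sub_self]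
      exact (smul_eq_zero.1 h9).resolve_left (sub_ne_zero.2 (Ne.symm hc1))
  have h11 : (PK P E₁ E₂).map (LinearMap.fst ℂ _ _) = ⊥ := by
    rw [eq_bot_iff]
    rintro _ ⟨p, hp', rfl⟩
    rw [Submodule.mem_bot]
    show p.1 = 0
    rw [← hp'.2.1, h8, zero_mul, zero_mul]
  rw [h11, finrank_bot] at f1
  omega

end GH
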