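import Pool.Agent.Helper43.GH.Bas

/-!
Project GH, block C3: if all the products of an element of nonzero degree and an operator on the kernel of `h` are in
`L`, then `L` contains all matrices of trace zero.
-/

set_option linter.unusedSectionVars false
set_option linter.unusedVariables false

open Matrix Module

namespace GH

open MH

variable {n : Type*} [Fintype n] [DecidableEq n] {L : Submodule ℂ (Matrix n n ℂ)} {h : Matrix n n ℂ}
  {E : ℝ → Matrix n n ℂ} {Λ : Finset ℝ}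

private theorem star_vM45 {p : Matrix n n ℂ} (hp : pᴴ = p) (b : n → ℂ) : star b ᵥ* p = star (p *ᵥ b) := by
  rw [Matrix.star_mulVec, hp]

private theorem vmv_mul45 (a b c d : n → ℂ) :
    vecMulVec a (star b) * vecMulVec c (star d) = (star b ⬝ᵥ c) • vecMulVec a (star d) := by
  rw [Matrix.vecMulVec_mul_vecMulVec]
  ext i j
  simp only [vecMulVec_apply, Matrix.smul_apply, Pi.smul_apply, smul_eq_mul]
  ring

private theorem vmv_star45 (a b : n → ℂ) : (vecMulVec a (star b))ᴴ = vecMulVec b (star a) := by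
  ext i j
  simp [vecMulVec_apply, Matrix.conjTranspose_apply, mul_comm]

open ComplexOrder in
private theorem dot_ne45 {v : n → ℂ} (hv : v ≠ 0) : star v ⬝ᵥ v ≠ 0 :=
  fun h => hv (dotProduct_star_self_eq_zero.1 h)

/-- the elements of nonzero degree carry the kernel of `h` onto its complement -/
private theorem span45 (G : Gr L h E Λ) (S0 : Sp0 L h E) {w : n → ℂ} (hw : E 0 *ᵥ w = 0) :
    w ∈ Submodule.span ℂ {v | ∃ ν : ℝ, ν ≠ 0 ∧ ∃ x ∈ Ld L h ν, ∃ a, v = x *ᵥ (E 0 *ᵥ a)} := by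
  obtain ⟨T, hTT, hTs, hT, -⟩ := proj (Submodule.span ℂ {v : n → ℂ | ∃ ν : ℝ, ν ≠ 0 ∧ ∃ x ∈ Ld L h ν, ∃ a,
    v = x *ᵥ (E 0 *ᵥ a)})
  have hE0 : (E 0)ᴴ = E 0 := G.spec.star 0
  -- the span lies in the complement of the kernel
  have h1 : ∀ v ∈ Submodule.span ℂ {v : n → ℂ | ∃ ν : ℝ, ν ≠ 0 ∧ ∃ x ∈ Ld L h ν, ∃ a, v = x *ᵥ (E 0 *ᵥ a)},
      E 0 *ᵥ v = 0 := by
    intro v hv
    induction hv using Submodule.span_induction with
    | mem v hv =>
      obtain ⟨ν, hν, x, hx, a, rfl⟩ := hv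
      rw [Matrix.mulVec_mulVec, Matrix.mulVec_mulVec, G.EE hν hx, Matrix.zero_mulVec]
    | zero => exact Matrix.mulVec_zero _
    | add a b _ _ ha hb => rw [Matrix.mulVec_add, ha, hb, add_zero]
    | smul c a _ ha => rw [Matrix.mulVec_smul, ha, smul_zero]
  have h2 : T *ᵥ w ∈ Submodule.span ℂ {v : n → ℂ | ∃ ν : ℝ, ν ≠ 0 ∧ ∃ x ∈ Ld L h ν, ∃ a,
      v = x *ᵥ (E 0 *ᵥ a)} := by
    rw [hT, Matrix.mulVec_mulVec, hTT]
  have h0 : T *ᵥ (w - T *ᵥ w) = 0 := by rw [Matrix.mulVec_sub, Matrix.mulVec_mulVec, hTT, sub_self]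
  have h3 : w - T *ᵥ w = 0 := by
    apply S0
    · rw [Matrix.mulVec_sub, hw, h1 _ h2, sub_zero]
    · intro ν hν x hx
      have h4 : ∀ a : n → ℂ, a ⬝ᵥ (E 0 *ᵥ (x *ᵥ (w - T *ᵥ w))) = 0 := by
        intro a
        have h5 : xᴴ *ᵥ (E 0 *ᵥ (star a)) ∈ Submodule.span ℂ {v : n → ℂ | ∃ ν : ℝ, ν ≠ 0 ∧ ∃ x ∈ Ld L h ν, ∃ a,
            v = x *ᵥ (E 0 *ᵥ a)} :=
          Submodule.subset_span ⟨-ν, neg_ne_zero.2 hν, xᴴ, G.star_Ld hx, star a, rfl⟩
        have h6 := (hT _).1 h5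
        have h7 : a ⬝ᵥ (E 0 *ᵥ (x *ᵥ (w - T *ᵥ w))) =
            star (xᴴ *ᵥ (E 0 *ᵥ (star a))) ⬝ᵥ (w - T *ᵥ w) := by
          rw [Matrix.star_mulVec, Matrix.conjTranspose_conjTranspose, Matrix.star_mulVec, hE0, star_star,
            ← Matrix.dotProduct_mulVec, ← Matrix.dotProduct_mulVec]
        rw [h7, ← h6, Matrix.star_mulVec T, hTs, ← Matrix.dotProduct_mulVec, h0, dotProduct_zero]
      funext i
      have h5 := h4 (Pi.single i 1)
      rw [single_one_dotProduct] at h5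
      exact h5
  have h4 : w = T *ᵥ w := sub_eq_zero.1 h3
  rw [h4]
  exact h2

/-- C3 -/
theorem Gr.sl (G : Gr L h E Λ) (S0 : Sp0 L h E) (hE : E 0 ≠ 1)
    (ha : ∀ u : Matrix n n ℂ, E 0 * u * E 0 = u → ∀ ν : ℝ, ν ≠ 0 → ∀ x ∈ Ld L h ν, x * u ∈ L)
    {x : Matrix n n ℂ} (hx : x.trace = 0) : x ∈ L := by
  classical
  have hE0 : (E 0)ᴴ = E 0 := G.spec.star 0
  have hEE : E 0 * E 0 = E 0 := by rw [G.spec.mul, if_pos rfl]
  have hEv : ∀ a, E 0 *ᵥ (E 0 *ᵥ a) = E 0 *ᵥ a := fun a => by rw [Matrix.mulVec_mulVec, hEE]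
  -- `w k^H`
  have h1 : ∀ w k : n → ℂ, E 0 *ᵥ w = 0 → E 0 *ᵥ k = k → vecMulVec w (star k) ∈ L := by
    intro w k hw hk
    have h2 := span45 G S0 hw
    clear hw
    induction h2 using Submodule.span_induction with
    | mem v hv =>
      obtain ⟨ν, hν, x, hx, a, rfl⟩ := hv
      have h3 : x * vecMulVec (E 0 *ᵥ a) (star k) ∈ L := by
        refine ha _ ?_ ν hν x hx
        rw [Matrix.mul_vecMulVec, hEv, Matrix.vecMulVec_mul, star_vM45 hE0, hk]
      rw [Matrix.mul_vecMulVec] at h3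
      exact h3
    | zero =>
      have h3 : vecMulVec (0 : n → ℂ) (star k) = 0 := Matrix.zero_vecMulVec _
      rw [h3]
      exact L.zero_mem
    | add a b _ _ iha ihb =>
      rw [Matrix.add_vecMulVec]
      exact L.add_mem iha ihb
    | smul c a _ iha =>
      rw [Matrix.smul_vecMulVec]
      exact L.smul_mem c iha
  have h2 : ∀ w k : n → ℂ, E 0 *ᵥ w = 0 → E 0 *ᵥ k = k → vecMulVec k (star w) ∈ L := by
    intro w k hw hk
    rw [← vmv_star45]
    exact G.st _ (h1 w k hw hk)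
  have h3 : ∀ w w' k k' : n → ℂ, E 0 *ᵥ w = 0 → E 0 *ᵥ w' = 0 → E 0 *ᵥ k = k → E 0 *ᵥ k' = k' →
      (star k ⬝ᵥ k') • vecMulVec w (star w') - (star w' ⬝ᵥ w) • vecMulVec k' (star k) ∈ L := by
    intro w w' k k' hw hw' hk hk'
    have h4 := G.br _ (h1 w k hw hk) _ (h2 w' k' hw' hk')
    rw [vmv_mul45, vmv_mul45] at h4
    exact h4
  -- a vector in the kernel and a vector in the complement
  obtain ⟨w0, hw0, hw0'⟩ : ∃ w0 : n → ℂ, E 0 *ᵥ w0 = 0 ∧ w0 ≠ 0 := by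
    by_contra hcon
    push Not at hcon
    apply hE
    apply Matrix.toLin'.injective
    refine LinearMap.ext fun v => ?_
    rw [Matrix.toLin'_apply, Matrix.toLin'_one, LinearMap.id_apply]
    have h5 := hcon (v - E 0 *ᵥ v) (by rw [Matrix.mulVec_sub, hEv, sub_self])
    exact (sub_eq_zero.1 h5).symm
  obtain ⟨k0, hk0, hk0'⟩ : ∃ k0 : n → ℂ, E 0 *ᵥ k0 = k0 ∧ k0 ≠ 0 := by
    by_contra hcon
    push Not at hcon
    have h5 : ∀ v, E 0 *ᵥ v = 0 := fun v => hcon _ (hEv v)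
    exact hw0' (S0 w0 (h5 w0) fun ν hν x hx => h5 _)
  have hs : star k0 ⬝ᵥ k0 ≠ 0 := dot_ne45 hk0'
  have ht : star w0 ⬝ᵥ w0 ≠ 0 := dot_ne45 hw0'
  obtain ⟨q, hq⟩ : ∃ q, q = (star k0 ⬝ᵥ k0)⁻¹ • vecMulVec k0 (star k0) := ⟨_, rfl⟩
  have hq' : vecMulVec k0 (star k0) = (star k0 ⬝ᵥ k0) • q := by
    rw [hq, smul_smul, mul_inv_cancel₀ hs, one_smul]
  have hww : ∀ w w' : n → ℂ, E 0 *ᵥ w = 0 → E 0 *ᵥ w' = 0 → vecMulVec w (star w') - (star w' ⬝ᵥ w) • q ∈ L := by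
    intro w w' hw hw'
    have h5 := L.smul_mem (star k0 ⬝ᵥ k0)⁻¹ (h3 w w' k0 k0 hw hw' hk0 hk0)
    rw [smul_sub, smul_smul, inv_mul_cancel₀ hs, one_smul, smul_comm, ← hq] at h5
    exact h5
  have hkk : ∀ k k' : n → ℂ, E 0 *ᵥ k = k → E 0 *ᵥ k' = k' → vecMulVec k' (star k) - (star k ⬝ᵥ k') • q ∈ L := by
    intro k k' hk hk'
    have h5 := h3 w0 w0 k k' hw0 hw0 hk hk'
    have h6 := L.smul_mem (star k ⬝ᵥ k') (hww w0 w0 hw0 hw0)
    have h7 := L.smul_mem (star w0 ⬝ᵥ w0)⁻¹ (L.sub_mem h6 h5)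
    have h8 : (star k ⬝ᵥ k') • (vecMulVec w0 (star w0) - (star w0 ⬝ᵥ w0) • q) -
        ((star k ⬝ᵥ k') • vecMulVec w0 (star w0) - (star w0 ⬝ᵥ w0) • vecMulVec k' (star k)) =
        (star w0 ⬝ᵥ w0) • (vecMulVec k' (star k) - (star k ⬝ᵥ k') • q) := by
      rw [smul_sub, smul_sub, smul_comm (star k ⬝ᵥ k') (star w0 ⬝ᵥ w0) q]
      abel
    rw [h8, smul_smul, inv_mul_cancel₀ ht, one_smul] at h7
    exact h7
  have hab : ∀ a b : n → ℂ, vecMulVec a (star b) - (star b ⬝ᵥ a) • q ∈ L := by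
    intro a b
    obtain ⟨a1, ha1⟩ : ∃ a1, a1 = a - E 0 *ᵥ a := ⟨_, rfl⟩
    obtain ⟨a2, ha2⟩ : ∃ a2, a2 = E 0 *ᵥ a := ⟨_, rfl⟩
    obtain ⟨b1, hb1⟩ : ∃ b1, b1 = b - E 0 *ᵥ b := ⟨_, rfl⟩
    obtain ⟨b2, hb2⟩ : ∃ b2, b2 = E 0 *ᵥ b := ⟨_, rfl⟩
    have e1 : E 0 *ᵥ a1 = 0 := by rw [ha1, Matrix.mulVec_sub, hEv, sub_self]
    have e2 : E 0 *ᵥ a2 = a2 := by rw [ha2, hEv]
    have e3 : E 0 *ᵥ b1 = 0 := by rw [hb1, Matrix.mulVec_sub, hEv, sub_self]
    have e4 : E 0 *ᵥ b2 = b2 := by rw [hb2, hEv]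
    have ea : a = a1 + a2 := by rw [ha1, ha2, sub_add_cancel]
    have eb : b = b1 + b2 := by rw [hb1, hb2, sub_add_cancel]
    have z1 : star b1 ⬝ᵥ a2 = 0 := by
      rw [← e2, Matrix.dotProduct_mulVec, star_vM45 hE0, e3, star_zero, zero_dotProduct]
    have z2 : star b2 ⬝ᵥ a1 = 0 := by
      rw [← e4, ← star_vM45 hE0, ← Matrix.dotProduct_mulVec, e1, dotProduct_zero]
    have h5 := L.add_mem (L.add_mem (hww a1 b1 e1 e3) (hkk b2 a2 e4 e2)) (L.add_mem (h1 a1 b2 e1 e4) (h2 b1 a2 e3 e2))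
    have h6 : vecMulVec a (star b) - (star b ⬝ᵥ a) • q =
        (vecMulVec a1 (star b1) - (star b1 ⬝ᵥ a1) • q + (vecMulVec a2 (star b2) - (star b2 ⬝ᵥ a2) • q)) +
          (vecMulVec a1 (star b2) + vecMulVec a2 (star b1)) := by
      rw [ea, eb, star_add, add_dotProduct, dotProduct_add, dotProduct_add, z1, z2, zero_add, add_zero,
        Matrix.add_vecMulVec, Matrix.vecMulVec_add, Matrix.vecMulVec_add, add_smul]
      abel
    rw [h6]
    exact h5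
  have hall : ∀ y : Matrix n n ℂ, y - y.trace • q ∈ L := by
    intro y
    have h5 : y - y.trace • q = ∑ i, ∑ j, y i j • (Matrix.single i j (1 : ℂ) - (if i = j then (1 : ℂ) else 0) • q) := by
      have e1 : ∑ i, ∑ j, y i j • Matrix.single i j (1 : ℂ) = y := by
        conv_rhs => rw [Matrix.matrix_eq_sum_single y]
        refine Finset.sum_congr rfl fun i _ => Finset.sum_congr rfl fun j _ => ?_
        rw [Matrix.smul_single, smul_eq_mul, mul_one]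
      have e2 : ∑ i, ∑ j, y i j • ((if i = j then (1 : ℂ) else 0) • q) = y.trace • q := by
        rw [Matrix.trace, Finset.sum_smul]
        refine Finset.sum_congr rfl fun i _ => ?_
        rw [Finset.sum_eq_single i]
        · rw [if_pos rfl, one_smul, Matrix.diag_apply]
        · intro j _ hj
          rw [if_neg (Ne.symm hj), zero_smul, smul_zero]
        · intro hi
          exact absurd (Finset.mem_univ i) hi
      simp only [smul_sub, Finset.sum_sub_distrib]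
      rw [e1, e2]
    rw [h5]
    refine L.sum_mem fun i _ => L.sum_mem fun j _ => L.smul_mem _ ?_
    have h6 := hab (Pi.single i 1) (Pi.single j 1)
    have e3 : star (Pi.single j (1 : ℂ) : n → ℂ) = Pi.single j 1 := by
      rw [← Pi.single_star, star_one]
    have e4 : vecMulVec (Pi.single i (1 : ℂ)) (Pi.single j (1 : ℂ)) = Matrix.single i j (1 : ℂ) := by
      rw [Matrix.single_eq_single_vecMulVec_single]
    have e5 : (Pi.single j (1 : ℂ) : n → ℂ) ⬝ᵥ Pi.single i (1 : ℂ) = if i = j then 1 else 0 := by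
      rw [single_one_dotProduct, Pi.single_apply]
      simp only [eq_comm]
    rw [e3, e4, e5] at h6
    exact h6
  have h5 := hall x
  rw [hx, zero_smul, sub_zero] at h5
  exact h5

end GH
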