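import Pool.Agent.Helper43.GH.Defs2

/-!
Project GH: a Lie algebra of pairs of matrices as a Lie algebra of block diagonal matrices (used in the blocks P1 and
P2).
-/

set_option linter.unusedSectionVars false
set_option linter.unusedVariables false

open Matrix Module

namespace GH

open MH

variable {m : Type*} [Fintype m] [DecidableEq m] {k : Type*} [Fintype k] [DecidableEq k]

/-- the block diagonal matrices of the elements of `P` -/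
def LP45 (P : Submodule ℂ (Matrix m m ℂ × Matrix k k ℂ)) : Submodule ℂ (Matrix (m ⊕ k) (m ⊕ k) ℂ) where
  carrier := {x | ∃ p ∈ P, x = fromBlocks p.1 0 0 p.2}
  add_mem' := by
    rintro _ _ ⟨p, hp, rfl⟩ ⟨q, hq, rfl⟩
    refine ⟨p + q, P.add_mem hp hq, ?_⟩
    rw [fromBlocks_add, add_zero, add_zero, Prod.fst_add, Prod.snd_add]
  zero_mem' := ⟨0, P.zero_mem, by rw [Prod.fst_zero, Prod.snd_zero, fromBlocks_zero]⟩
  smul_mem' := by
    rintro c _ ⟨p, hp, rfl⟩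
    refine ⟨c • p, P.smul_mem c hp, ?_⟩
    rw [fromBlocks_smul, smul_zero, smul_zero, Prod.smul_fst, Prod.smul_snd]

/-- block diagonal matrices -/
def dg45 (x : Matrix m m ℂ) (y : Matrix k k ℂ) : Matrix (m ⊕ k) (m ⊕ k) ℂ := fromBlocks x 0 0 y

/-- the spectral decomposition of the block diagonal matrix -/
def EP45 (E₁ : ℝ → Matrix m m ℂ) (E₂ : ℝ → Matrix k k ℂ) : ℝ → Matrix (m ⊕ k) (m ⊕ k) ℂ :=
  fun μ => dg45 (E₁ μ) (E₂ μ)

/-- the two central projections -/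
def fP45 (m k : Type*) [Fintype m] [DecidableEq m] [Fintype k] [DecidableEq k] : Fin 2 → Matrix (m ⊕ k) (m ⊕ k) ℂ :=
  ![dg45 1 0, dg45 0 1]

theorem dg_mul45 (x x' : Matrix m m ℂ) (y y' : Matrix k k ℂ) : dg45 x y * dg45 x' y' = dg45 (x * x') (y * y') := by
  unfold dg45
  rw [fromBlocks_multiply]
  simp only [Matrix.mul_zero, Matrix.zero_mul, add_zero, zero_add]

theorem dg_add45 (x x' : Matrix m m ℂ) (y y' : Matrix k k ℂ) : dg45 x y + dg45 x' y' = dg45 (x + x') (y + y') := by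
  unfold dg45
  rw [fromBlocks_add, add_zero, add_zero]

theorem dg_sub45 (x x' : Matrix m m ℂ) (y y' : Matrix k k ℂ) : dg45 x y - dg45 x' y' = dg45 (x - x') (y - y') := by
  unfold dg45
  rw [sub_eq_add_neg, fromBlocks_neg, fromBlocks_add, neg_zero, neg_zero, add_zero, add_zero, ← sub_eq_add_neg,
    ← sub_eq_add_neg]

theorem dg_smul45 (c : ℂ) (x : Matrix m m ℂ) (y : Matrix k k ℂ) : c • dg45 x y = dg45 (c • x) (c • y) := by
  unfold dg45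
  rw [fromBlocks_smul, smul_zero, smul_zero]

theorem dg_star45 (x : Matrix m m ℂ) (y : Matrix k k ℂ) : (dg45 x y)ᴴ = dg45 xᴴ yᴴ := by
  unfold dg45
  rw [fromBlocks_conjTranspose, conjTranspose_zero, conjTranspose_zero]

theorem dg_transpose45 (x : Matrix m m ℂ) (y : Matrix k k ℂ) : (dg45 x y)ᵀ = dg45 xᵀ yᵀ := by
  unfold dg45
  rw [fromBlocks_transpose, transpose_zero, transpose_zero]

theorem dg_inj45 {x x' : Matrix m m ℂ} {y y' : Matrix k k ℂ} (h : dg45 x y = dg45 x' y') : x = x' ∧ y = y' := by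
  obtain ⟨h1, -, -, h2⟩ := fromBlocks_inj.1 h
  exact ⟨h1, h2⟩

theorem dg_zero45 : dg45 (0 : Matrix m m ℂ) (0 : Matrix k k ℂ) = 0 := fromBlocks_zero

theorem dg_one45 : dg45 (1 : Matrix m m ℂ) (1 : Matrix k k ℂ) = 1 := fromBlocks_one

theorem dg_sum45 {ι : Type*} (s : Finset ι) (x : ι → Matrix m m ℂ) (y : ι → Matrix k k ℂ) :
    ∑ i ∈ s, dg45 (x i) (y i) = dg45 (∑ i ∈ s, x i) (∑ i ∈ s, y i) := by
  classical
  induction s using Finset.induction_on with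
  | empty => rw [Finset.sum_empty, Finset.sum_empty, Finset.sum_empty, dg_zero45]
  | insert a s ha ih => rw [Finset.sum_insert ha, Finset.sum_insert ha, Finset.sum_insert ha, ih, dg_add45]

variable {P : Submodule ℂ (Matrix m m ℂ × Matrix k k ℂ)} {h₁ : Matrix m m ℂ} {E₁ : ℝ → Matrix m m ℂ} {Λ₁ : Finset ℝ}
  {h₂ : Matrix k k ℂ} {E₂ : ℝ → Matrix k k ℂ} {Λ₂ : Finset ℝ}

theorem mem_LP45 {x : Matrix (m ⊕ k) (m ⊕ k) ℂ} : x ∈ LP45 P ↔ ∃ p ∈ P, x = dg45 p.1 p.2 := Iff.rfl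

theorem dg_mem45 {x : Matrix m m ℂ} {y : Matrix k k ℂ} : dg45 x y ∈ LP45 P ↔ (x, y) ∈ P := by
  rw [mem_LP45]
  constructor
  · rintro ⟨p, hp, h⟩
    obtain ⟨h1, h2⟩ := dg_inj45 h
    rw [h1, h2]
    exact hp
  · intro h
    exact ⟨(x, y), h, rfl⟩

theorem mem_Ld45 {ν : ℝ} {x : Matrix (m ⊕ k) (m ⊕ k) ℂ} :
    x ∈ Ld (LP45 P) (dg45 h₁ h₂) ν ↔ ∃ p ∈ Pd P h₁ h₂ ν, x = dg45 p.1 p.2 := by
  constructor
  · rintro ⟨hx, hx'⟩
    obtain ⟨p, hp, rfl⟩ := mem_LP45.1 hx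
    rw [dg_mul45, dg_mul45, dg_sub45, dg_smul45] at hx'
    obtain ⟨h1, h2⟩ := dg_inj45 hx'
    exact ⟨p, ⟨hp, h1, h2⟩, rfl⟩
  · rintro ⟨p, ⟨hp, h1, h2⟩, rfl⟩
    refine ⟨mem_LP45.2 ⟨p, hp, rfl⟩, ?_⟩
    rw [dg_mul45, dg_mul45, dg_sub45, dg_smul45, h1, h2]

theorem mem_KK45 {x : Matrix (m ⊕ k) (m ⊕ k) ℂ} :
    x ∈ KK (LP45 P) (EP45 E₁ E₂) ↔ ∃ p ∈ PK P E₁ E₂, x = dg45 p.1 p.2 := by
  constructor
  · rintro ⟨hx, hx'⟩
    obtain ⟨p, hp, rfl⟩ := mem_LP45.1 hx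
    unfold EP45 at hx'
    rw [dg_mul45, dg_mul45] at hx'
    obtain ⟨h1, h2⟩ := dg_inj45 hx'
    exact ⟨p, ⟨hp, h1, h2⟩, rfl⟩
  · rintro ⟨p, ⟨hp, h1, h2⟩, rfl⟩
    refine ⟨mem_LP45.2 ⟨p, hp, rfl⟩, ?_⟩
    unfold EP45
    rw [dg_mul45, dg_mul45, h1, h2]

theorem spec45 (D : PG P h₁ E₁ Λ₁ h₂ E₂ Λ₂) : Spec (dg45 h₁ h₂) (EP45 E₁ E₂) (Λ₁ ∪ Λ₂) := by
  have e1 : ∀ g : ℝ → ℂ, ∑ μ ∈ Λ₁ ∪ Λ₂, g μ • E₁ μ = ∑ μ ∈ Λ₁, g μ • E₁ μ := by
    intro g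
    symm
    apply Finset.sum_subset Finset.subset_union_left
    intro μ _ hμ
    rw [D.spec1.supp μ hμ, smul_zero]
  have e2 : ∀ g : ℝ → ℂ, ∑ μ ∈ Λ₁ ∪ Λ₂, g μ • E₂ μ = ∑ μ ∈ Λ₂, g μ • E₂ μ := by
    intro g
    symm
    apply Finset.sum_subset Finset.subset_union_right
    intro μ _ hμ
    rw [D.spec2.supp μ hμ, smul_zero]
  refine ⟨?_, ?_, ?_, ?_, ?_⟩
  · intro μ
    unfold EP45
    rw [dg_star45, D.spec1.star, D.spec2.star]
  · intro μ ν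
    unfold EP45
    rw [dg_mul45, D.spec1.mul, D.spec2.mul]
    split_ifs
    · rfl
    · exact dg_zero45
  · intro μ hμ
    rw [Finset.mem_union, not_or] at hμ
    unfold EP45
    rw [D.spec1.supp μ hμ.1, D.spec2.supp μ hμ.2, dg_zero45]
  · unfold EP45
    have a1 := e1 (fun _ => 1)
    have a2 := e2 (fun _ => 1)
    simp only [one_smul] at a1 a2
    rw [dg_sum45, a1, a2, D.spec1.sum, D.spec2.sum, dg_one45]
  · unfold EP45
    simp only [dg_smul45]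
    rw [dg_sum45, e1 (fun μ => (μ : ℂ)), e2 (fun μ => (μ : ℂ)), ← D.spec1.eq, ← D.spec2.eq]

theorem gr45 (D : PG P h₁ E₁ Λ₁ h₂ E₂ Λ₂) : Gr (LP45 P) (dg45 h₁ h₂) (EP45 E₁ E₂) (Λ₁ ∪ Λ₂) := by
  refine ⟨spec45 D, ?_, ?_, dg_mem45.2 D.mem⟩
  · intro x hx y hy
    obtain ⟨p, hp, rfl⟩ := mem_LP45.1 hx
    obtain ⟨q, hq, rfl⟩ := mem_LP45.1 hy
    rw [dg_mul45, dg_mul45, dg_sub45]
    exact dg_mem45.2 (D.br p hp q hq)
  · intro x hx
    obtain ⟨p, hp, rfl⟩ := mem_LP45.1 hx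
    rw [dg_star45]
    exact dg_mem45.2 (D.st p hp)

/-- what commutes with the two projections is block diagonal -/
theorem diag45 {T : Matrix (m ⊕ k) (m ⊕ k) ℂ} (h : T * dg45 1 0 = dg45 1 0 * T) :
    T = dg45 T.toBlocks₁₁ T.toBlocks₂₂ := by
  rw [← fromBlocks_toBlocks T] at h ⊢
  unfold dg45 at h ⊢
  rw [fromBlocks_multiply, fromBlocks_multiply] at h
  simp only [Matrix.mul_zero, Matrix.zero_mul, add_zero, Matrix.mul_one, Matrix.one_mul] at h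
  obtain ⟨-, h1, h2, -⟩ := fromBlocks_inj.1 h
  rw [toBlocks_fromBlocks₁₁, toBlocks_fromBlocks₂₂, ← h1, h2]

theorem fam45 (D : PG P h₁ E₁ Λ₁ h₂ E₂ Λ₂) (n1 : Nr1 P h₁ h₂) (n2 : Nr2 P h₁ h₂) : Fam (LP45 P) (fP45 m k) := by
  have f0 : fP45 m k 0 = dg45 1 0 := rfl
  have f1 : fP45 m k 1 = dg45 0 1 := rfl
  have hmem : ∀ i, fP45 m k i ∈ LP45 P := by
    intro i
    fin_cases i
    · exact dg_mem45.2 D.one1
    · exact dg_mem45.2 D.one2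
  refine ⟨?_, ?_, ?_, hmem, ?_, ?_⟩
  · intro i j
    fin_cases i <;> fin_cases j
    · show dg45 1 0 * dg45 1 0 = dg45 1 0
      rw [dg_mul45, mul_one, mul_zero]
    · show dg45 1 0 * dg45 0 1 = 0
      rw [dg_mul45, mul_zero, zero_mul, dg_zero45]
    · show dg45 0 1 * dg45 1 0 = 0
      rw [dg_mul45, mul_zero, zero_mul, dg_zero45]
    · show dg45 0 1 * dg45 0 1 = dg45 0 1
      rw [dg_mul45, mul_one, mul_zero]
  · intro i
    fin_cases i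
    · show (dg45 1 0)ᴴ = dg45 1 0
      rw [dg_star45, conjTranspose_one, conjTranspose_zero]
    · show (dg45 0 1)ᴴ = dg45 0 1
      rw [dg_star45, conjTranspose_one, conjTranspose_zero]
  · rw [Fin.sum_univ_two, f0, f1, dg_add45, add_zero, zero_add, dg_one45]
  · intro i x hx
    obtain ⟨p, hp, rfl⟩ := mem_LP45.1 hx
    fin_cases i
    · show dg45 1 0 * dg45 p.1 p.2 = dg45 p.1 p.2 * dg45 1 0
      rw [dg_mul45, dg_mul45, one_mul, mul_one, zero_mul, mul_zero]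
    · show dg45 0 1 * dg45 p.1 p.2 = dg45 p.1 p.2 * dg45 0 1
      rw [dg_mul45, dg_mul45, one_mul, mul_one, zero_mul, mul_zero]
  · intro T hT
    have h1 := diag45 (hT _ (hmem 0))
    have h2 : ∀ p ∈ P, T.toBlocks₁₁ * p.1 = p.1 * T.toBlocks₁₁ ∧ T.toBlocks₂₂ * p.2 = p.2 * T.toBlocks₂₂ := by
      intro p hp
      have h3 := hT _ (mem_LP45.2 ⟨p, hp, rfl⟩)
      rw [h1, dg_mul45, dg_mul45] at h3
      exact dg_inj45 h3
    obtain ⟨c, hc⟩ := n1 T.toBlocks₁₁ (h2 _ D.mem).1 fun ν _ p hp => (h2 p hp.1).1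
    obtain ⟨d, hd⟩ := n2 T.toBlocks₂₂ (h2 _ D.mem).2 fun ν _ p hp => (h2 p hp.1).2
    refine ⟨![c, d], ?_⟩
    rw [Fin.sum_univ_two, f0, f1]
    show T = c • dg45 1 0 + d • dg45 0 1
    rw [h1, hc, hd, dg_smul45, dg_smul45, dg_add45, smul_zero, smul_zero, add_zero, zero_add]

theorem four45 (f1 : 4 ≤ finrank ℂ ((PK P E₁ E₂).map (LinearMap.fst ℂ _ _)))
    (f2 : 4 ≤ finrank ℂ ((PK P E₁ E₂).map (LinearMap.snd ℂ _ _))) : Four (LP45 P) (EP45 E₁ E₂) (fP45 m k) := by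
  intro i
  let t1 : Matrix (m ⊕ k) (m ⊕ k) ℂ →ₗ[ℂ] Matrix m m ℂ :=
    { toFun := fun x => x.toBlocks₁₁
      map_add' := fun x y => rfl
      map_smul' := fun c x => rfl }
  let t2 : Matrix (m ⊕ k) (m ⊕ k) ℂ →ₗ[ℂ] Matrix k k ℂ :=
    { toFun := fun x => x.toBlocks₂₂
      map_add' := fun x y => rfl
      map_smul' := fun c x => rfl }
  fin_cases i
  · show 4 ≤ finrank ℂ ((KK (LP45 P) (EP45 E₁ E₂)).map (LinearMap.mulLeft ℂ (dg45 1 0)))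
    have h1 : (PK P E₁ E₂).map (LinearMap.fst ℂ _ _) =
        ((KK (LP45 P) (EP45 E₁ E₂)).map (LinearMap.mulLeft ℂ (dg45 1 0))).map t1 := by
      apply le_antisymm
      · rintro _ ⟨p, hp, rfl⟩
        refine ⟨dg45 1 0 * dg45 p.1 p.2, ⟨dg45 p.1 p.2, mem_KK45.2 ⟨p, hp, rfl⟩, rfl⟩, ?_⟩
        show (dg45 1 0 * dg45 p.1 p.2).toBlocks₁₁ = p.1
        rw [dg_mul45, one_mul]
        exact toBlocks_fromBlocks₁₁ _ _ _ _
      · rintro _ ⟨_, ⟨x, hx, rfl⟩, rfl⟩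
        obtain ⟨p, hp, rfl⟩ := mem_KK45.1 hx
        refine ⟨p, hp, ?_⟩
        show p.1 = (dg45 1 0 * dg45 p.1 p.2).toBlocks₁₁
        rw [dg_mul45, one_mul]
        exact (toBlocks_fromBlocks₁₁ _ _ _ _).symm
    rw [h1] at f1
    exact f1.trans (Submodule.finrank_map_le _ _)
  · show 4 ≤ finrank ℂ ((KK (LP45 P) (EP45 E₁ E₂)).map (LinearMap.mulLeft ℂ (dg45 0 1)))
    have h1 : (PK P E₁ E₂).map (LinearMap.snd ℂ _ _) =
        ((KK (LP45 P) (EP45 E₁ E₂)).map (LinearMap.mulLeft ℂ (dg45 0 1))).map t2 := by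
      apply le_antisymm
      · rintro _ ⟨p, hp, rfl⟩
        refine ⟨dg45 0 1 * dg45 p.1 p.2, ⟨dg45 p.1 p.2, mem_KK45.2 ⟨p, hp, rfl⟩, rfl⟩, ?_⟩
        show (dg45 0 1 * dg45 p.1 p.2).toBlocks₂₂ = p.2
        rw [dg_mul45, one_mul]
        exact toBlocks_fromBlocks₂₂ _ _ _ _
      · rintro _ ⟨_, ⟨x, hx, rfl⟩, rfl⟩
        obtain ⟨p, hp, rfl⟩ := mem_KK45.1 hx
        refine ⟨p, hp, ?_⟩
        show p.2 = (dg45 0 1 * dg45 p.1 p.2).toBlocks₂₂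
        rw [dg_mul45, one_mul]
        exact (toBlocks_fromBlocks₂₂ _ _ _ _).symm
    rw [h1] at f2
    exact f2.trans (Submodule.finrank_map_le _ _)

end GH
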